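import Pool.Agent.Helper99.NQ.Defs

/-!
# NQ, Q4: the recursion
-/

namespace Pool.Agent.Helper89.NQ

open Finset Pool.Agent.Helper19.NF Pool.Agent.Helper74.NW Pool.Agent.Helper99.NQ
open Pool.Agent.Helper74.NE (fine fine_apply)

section lists

variable {D m : ℕ} {B : Type} [Fintype B]

theorem free_append_left (c c' : List (B × Word D m B)) : free (c ++ c') ⊆ free c := by
  classical
  intro z hz
  simp only [free, mem_filter, mem_univ, true_and, List.mem_append, not_or] at hz ⊢
  exact hz.1

theorem free_append_right (c c' : List (B × Word D m B)) : free (c ++ c') ⊆ free c' := by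
  classical
  intro z hz
  simp only [free, mem_filter, mem_univ, true_and, List.mem_append, not_or] at hz ⊢
  exact hz.2

/-- A list with `k` queries leaves at least all but `k` of the symbols of a block. -/
theorem card_le_gap (c : List (B × Word D m B)) (b : B) :
    Fintype.card (Word D m B) ≤ gap (free c) b + c.length := by
  classical
  have h1 : ((univ : Finset (Word D m B)).filter (fun l => ¬ (b, l) ∈ free c)).card ≤ c.length := by
    calc ((univ : Finset (Word D m B)).filter (fun l => ¬ (b, l) ∈ free c)).card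
        = (((univ : Finset (Word D m B)).filter (fun l => ¬ (b, l) ∈ free c)).image (fun l => (b, l))).card :=
          (card_image_of_injective _ fun l l' e => (Prod.ext_iff.1 e).2).symm
      _ ≤ c.toFinset.card := by
          refine card_le_card fun z hz => ?_
          obtain ⟨l, hl, rfl⟩ := mem_image.1 hz
          have h2 := (mem_filter.1 hl).2
          simp only [free, mem_filter, mem_univ, true_and, not_not] at h2
          exact List.mem_toFinset.2 h2
      _ ≤ c.length := List.toFinset_card_le c
  have h3 := card_filter_add_card_filter_not (s := (univ : Finset (Word D m B))) (fun l => (b, l) ∈ free c)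
  rw [card_univ] at h3
  have h4 : gap (free c) b = ((univ : Finset (Word D m B)).filter (fun l => (b, l) ∈ free c)).card := by
    unfold gap
    congr
  omega

end lists

variable {n D m S : ℕ} [NeZero m] {F B Z : Type} [Field F] [AddCommGroup B] [Module F B] [Fintype B]

/-- If `comp` has at least `n / 4` nodes, then all but `a` nodes of the row are full. -/
theorem full_of_comp (g : Fin D → Equiv.Perm (Fin n)) (x0 : Fin n × Fin m → B) (h a i : ℕ)
    (hX : ∀ X : Finset (Fin n), n ≤ 4 * X.card → n ≤ (X.biUnion (fun u => univ.image (fun s => g s u))).card + a)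
    (I : B × Word D m B → F) (V : Finset (B × Word D m B)) (h4 : n ≤ 4 * (comp g x0 h i I V).card) :
    n ≤ (full g x0 h i I V).card + a := by
  classical
  have h1 := hX _ h4
  have h2 : ((comp g x0 h i I V).biUnion (fun u => univ.image (fun s => g s u))) ⊆ full g x0 h i I V := by
    intro v hv
    obtain ⟨u, hu, hv⟩ := mem_biUnion.1 hv
    obtain ⟨s, -, rfl⟩ := mem_image.1 hv
    have h3 := (mem_filter.1 hu).2
    exact mem_filter.2 ⟨mem_univ _, fun t => h3 s t⟩
  have h3 := card_le_card h2
  omega

/-- NQ, Q4. -/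
theorem exists_inE (P : NProg (B × Word D m B) F Z S) (g : Fin D → Equiv.Perm (Fin n)) (x0 : Fin n × Fin m → B)
    (h T a R : ℕ)
    (hX : ∀ X : Finset (Fin n), n ≤ 4 * X.card → n ≤ (X.biUnion (fun u => univ.image (fun s => g s u))).card + a)
    (ha : a < n) (hL : h + 1 ≤ Fintype.card (Word D m B)) {I : B × Word D m B → F}
    (hcf : CF (fine g) x0 R (tab I)) {s t : Fin S} (hF : Force P g x0 h T a R s t I)
    {c : List (B × Word D m B)} (hc : P.Run I s c t) (hlen : c.length ≤ 2 ^ R) :
    ∃ i < R, ∃ s' p t' J h1 h2, n ≤ 2 * J.card ∧ InE P g x0 h T a i s' p t' J h1 h2 I := by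
  classical
  induction R generalizing s t c with
  | zero =>
    exfalso
    have h1 := (hF c hc).1
    have h2 : 0 < (full g x0 h 0 I (free c)).card := by omega
    obtain ⟨u, hu⟩ := card_pos.1 h2
    have h3 := (mem_filter.1 hu).2 0
    have h4 := card_le_gap c (val (fine g) x0 (tab I) 0 (u, 0))
    rw [pow_zero] at hlen
    omega
  | succ R ih =>
    have h1 : P.Run I s (c.take (2 ^ R) ++ c.drop (2 ^ R)) t := by
      rw [List.take_append_drop]
      exact hc
    obtain ⟨p, hp1, hp2⟩ := run_split _ h1
    have hl1 : (c.take (2 ^ R)).length ≤ 2 ^ R := by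
      rw [List.length_take]
      exact min_le_left _ _
    have hl2 : (c.drop (2 ^ R)).length ≤ 2 ^ R := by
      rw [List.length_drop]
      rw [pow_succ] at hlen
      omega
    by_cases hA : ∀ c1, P.Run I s c1 p → n ≤ 4 * (comp g x0 h R I (free c1)).card
    · have hF1 : Force P g x0 h T a R s p I := by
        intro c1 hc1
        refine ⟨full_of_comp g x0 h a R hX I _ (hA c1 hc1), ?_⟩
        have h2 := (hF _ (run_append hc1 hp2)).2
        have h3 := card_le_card (free_append_left c1 (c.drop (2 ^ R)))
        omega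
      obtain ⟨i, hi, h2⟩ := ih (hcf.mono (Nat.le_succ R)) hF1 hp1 hl1
      exact ⟨i, by omega, h2⟩
    by_cases hB : ∀ c2, P.Run I p c2 t → n ≤ 4 * (comp g x0 h R I (free c2)).card
    · have hF2 : Force P g x0 h T a R p t I := by
        intro c2 hc2
        refine ⟨full_of_comp g x0 h a R hX I _ (hB c2 hc2), ?_⟩
        have h2 := (hF _ (run_append hp1 hc2)).2
        have h3 := card_le_card (free_append_right (c.take (2 ^ R)) c2)
        omega
      obtain ⟨i, hi, h2⟩ := ih (hcf.mono (Nat.le_succ R)) hF2 hp2 hl2
      exact ⟨i, by omega, h2⟩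
    push Not at hA hB
    obtain ⟨c1, hc1, h41⟩ := hA
    obtain ⟨c2, hc2, h42⟩ := hB
    -- the nodes which are complete in neither
    set J : Finset (Fin n) := (comp g x0 h R I (free c1) ∪ comp g x0 h R I (free c2))ᶜ with hJ
    have hJc : n ≤ 2 * J.card := by
      have h2 := card_union_le (comp g x0 h R I (free c1)) (comp g x0 h R I (free c2))
      have h3 := card_compl_add_card (comp g x0 h R I (free c1) ∪ comp g x0 h R I (free c2))
      rw [← hJ, Fintype.card_fin] at h3
      omega
    have hw : ∀ c' : List (B × Word D m B), ∀ u, u ∉ comp g x0 h R I (free c') →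
        ∃ r : Fin D × Fin m, h ≤ gap (free c') (val (fine g) x0 (tab I) R (g r.1 u, r.2)) := by
      intro c' u hu
      by_contra h2
      push Not at h2
      exact hu (mem_filter.2 ⟨mem_univ _, fun s t => h2 (s, t)⟩)
    have hn1 : ∀ u ∈ J, u ∉ comp g x0 h R I (free c1) := fun u hu h2 =>
      (mem_compl.1 hu) (mem_union_left _ h2)
    have hn2 : ∀ u ∈ J, u ∉ comp g x0 h R I (free c2) := fun u hu h2 =>
      (mem_compl.1 hu) (mem_union_right _ h2)
    have hJne : 0 < J.card := by omega
    obtain ⟨u0, hu0⟩ := card_pos.1 hJne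
    obtain ⟨r0, -⟩ := hw c1 u0 (hn1 u0 hu0)
    have hw' : ∀ c' : List (B × Word D m B), ∃ f : Fin n → Fin D × Fin m, ∀ u, u ∉ comp g x0 h R I (free c') →
        h ≤ gap (free c') (val (fine g) x0 (tab I) R (pos g f u)) := by
      intro c'
      have h2 : ∀ u, ∃ r : Fin D × Fin m, u ∉ comp g x0 h R I (free c') →
          h ≤ gap (free c') (val (fine g) x0 (tab I) R (g r.1 u, r.2)) := by
        intro u
        by_cases hu : u ∈ comp g x0 h R I (free c')
        · exact ⟨r0, fun h3 => absurd hu h3⟩
        · obtain ⟨r, hr⟩ := hw c' u hu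
          exact ⟨r, fun _ => hr⟩
      choose f hf using h2
      exact ⟨f, fun u hu => hf u hu⟩
    obtain ⟨f1, hf1⟩ := hw' c1
    obtain ⟨f2, hf2⟩ := hw' c2
    exact ⟨R, Nat.lt_succ_self R, s, p, t, J, f1, f2, hJc,
      { cf := hcf.mono (Nat.le_succ R)
        force := hF
        win1 := ⟨c1, hc1, fun u hu => hf1 u (hn1 u hu)⟩
        win2 := ⟨c2, hc2, fun u hu => hf2 u (hn2 u hu)⟩ }⟩

end Pool.Agent.Helper89.NQ
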