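import Mathlib

/-!
# Lemma D (one direction) in abstract form

`X`: inputs; `act b e`: change of the symbols `b u` by `e u`; `UU x u`: the symbols which the run chosen for `x` has
not read; an arrow `x → act b e x` needs `b u ∈ UU x u` for all `u` in the support of `e`.
-/

set_option autoImplicit false

namespace Pool.Agent.Helper89.NQ

open Finset

variable {ι W V X : Type*} [Fintype ι] [DecidableEq ι] [Fintype W] [DecidableEq W] [Fintype V] [DecidableEq V]
  [AddCommGroup V] [Fintype X] [DecidableEq X]

/-- The support. -/
def supp (e : ι → V) : Finset ι := univ.filter fun u => e u ≠ 0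

omit [DecidableEq ι] [Fintype V] in
theorem mem_supp (e : ι → V) (u : ι) : u ∈ supp e ↔ e u ≠ 0 := by simp [supp]

/-- The number of the incoming arrows of `x` with the support `K`. -/
def inc (act : (ι → W) → (ι → V) → X → X) (E : Finset X) (UU : X → ι → Finset W) (K : Finset ι) (x : X) : ℕ :=
  (univ.filter fun p : (ι → V) × (ι → W) => supp p.1 = K ∧ act p.2 (-p.1) x ∈ E ∧
    ∀ u ∈ K, p.2 u ∈ UU (act p.2 (-p.1) x) u).card

/-- The changes which are supported on `J`. -/
def chg (J : Finset ι) : Finset (ι → V) := univ.filter fun e => supp e ⊆ J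

theorem mem_chg (J : Finset ι) (e : ι → V) : e ∈ chg J ↔ ∀ u, u ∉ J → e u = 0 := by
  unfold chg
  rw [mem_filter]
  constructor
  · rintro ⟨-, h⟩ u hu
    by_contra h0
    exact hu (h ((mem_supp e u).2 h0))
  · intro h
    refine ⟨mem_univ _, fun u hu => ?_⟩
    by_contra h0
    exact (mem_supp e u).1 hu (h u h0)

theorem card_chg (J : Finset ι) : (chg J : Finset (ι → V)).card = Fintype.card V ^ J.card := by
  have : (chg J : Finset (ι → V)) = Fintype.piFinset fun u => if u ∈ J then (univ : Finset V) else {0} := by
    ext e
    rw [mem_chg, Fintype.mem_piFinset]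
    constructor
    · intro h u
      split_ifs with hu
      · exact mem_univ _
      · exact mem_singleton.2 (h u hu)
    · intro h u hu
      have := h u
      rw [if_neg hu] at this
      exact mem_singleton.1 this
  rw [this, Fintype.card_piFinset]
  rw [prod_congr rfl (g := fun u => if u ∈ J then Fintype.card V else 1) fun u _ => by split_ifs <;> simp]
  rw [prod_ite_mem, univ_inter, prod_const]

section orbit

variable (f : (ι → V) → X → X)

/-- A set with few returns is small. -/
theorem orbit_bound (h0 : ∀ x, f 0 x = x) (hadd : ∀ e e' x, f (e + e') x = f e (f e' x)) (J : Finset ι) (G : Finset X)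
    (M : ℕ) :
    (G.filter fun x => ((chg J).filter fun e => f e x ∈ G).card ≤ M).card * Fintype.card V ^ J.card ≤
      M * Fintype.card X := by
  classical
  set G' := G.filter fun x => ((chg J).filter fun e => f e x ∈ G).card ≤ M with hG'
  have hbij : ∀ e, Function.Bijective (f e) := by
    intro e
    refine ⟨fun x y h => ?_, fun y => ⟨f (-e) y, ?_⟩⟩
    · have := congrArg (f (-e)) h
      rw [← hadd, ← hadd, neg_add_cancel, h0, h0] at this
      exact this
    · rw [← hadd, add_neg_cancel, h0]
  have h1 : ∑ x : X, ((chg J).filter fun e => f e x ∈ G').card = G'.card * Fintype.card V ^ J.card := by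
    simp only [card_filter]
    rw [sum_comm]
    rw [sum_congr rfl (g := fun _ => G'.card) (s₁ := chg J)]
    · rw [sum_const, card_chg, smul_eq_mul, mul_comm]
    · intro e _
      rw [← card_filter]
      rw [← card_map ⟨f e, (hbij e).1⟩]
      congr 1
      ext y
      simp only [mem_map, mem_filter, mem_univ, true_and, Function.Embedding.coeFn_mk]
      constructor
      · rintro ⟨x, hx, rfl⟩
        exact hx
      · intro hy
        obtain ⟨x, rfl⟩ := (hbij e).2 y
        exact ⟨x, hy, rfl⟩
  rw [← h1]
  calc ∑ x : X, ((chg J).filter fun e => f e x ∈ G').card ≤ ∑ _x : X, M := by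
        refine sum_le_sum fun x _ => ?_
        rcases ((chg J).filter fun e => f e x ∈ G').eq_empty_or_nonempty with h | ⟨e₀, he₀⟩
        · rw [h, card_empty]
          exact Nat.zero_le _
        · rw [mem_filter] at he₀
          have hy := he₀.2
          rw [hG', mem_filter] at hy
          refine le_trans ?_ hy.2
          refine card_le_card_of_injOn (fun e => e - e₀) ?_ ?_
          · intro e he
            have he' := mem_filter.1 (mem_coe.1 he)
            rw [mem_coe, mem_filter]
            refine ⟨?_, ?_⟩
            · rw [mem_chg]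
              intro u hu
              show e u - e₀ u = 0
              rw [(mem_chg J e).1 he'.1 u hu, (mem_chg J e₀).1 he₀.1 u hu, sub_zero]
            · rw [← hadd, sub_add_cancel]
              exact (mem_filter.1 he'.2).1
          · intro e _ e' _ h
            exact sub_left_injective h
    _ = M * Fintype.card X := by rw [sum_const, card_univ, smul_eq_mul, mul_comm]

end orbit

/-- The blocks of symbols which are unread on `J`. -/
def unr (UU : X → ι → Finset W) (J : Finset ι) (x : X) : Finset (ι → W) :=
  univ.filter fun b => ∀ u ∈ J, b u ∈ UU x u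

omit [Fintype X] [DecidableEq X] in
theorem card_unr (UU : X → ι → Finset W) (J : Finset ι) (x : X) (h : ℕ) (hU : ∀ u ∈ J, h ≤ (UU x u).card) :
    h ^ J.card * Fintype.card W ^ (Fintype.card ι - J.card) ≤ (unr UU J x).card := by
  have : unr UU J x = Fintype.piFinset fun u => if u ∈ J then UU x u else (univ : Finset W) := by
    ext b
    unfold unr
    rw [mem_filter, Fintype.mem_piFinset]
    constructor
    · rintro ⟨-, hb⟩ u
      split_ifs with hu
      · exact hb u hu
      · exact mem_univ _
    · intro hb
      refine ⟨mem_univ _, fun u hu => ?_⟩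
      have := hb u
      rw [if_pos hu] at this
      exact this
  rw [this, Fintype.card_piFinset]
  calc h ^ J.card * Fintype.card W ^ (Fintype.card ι - J.card)
      = ∏ u : ι, if u ∈ J then h else Fintype.card W := by
        rw [prod_ite, prod_const, prod_const]
        congr 2
        · congr 1
          ext u
          simp
        · rw [← card_univ, ← card_sdiff_of_subset (subset_univ J)]
          congr 1
          ext u
          simp
    _ ≤ _ := by
        refine prod_le_prod' fun u _ => ?_
        split_ifs with hu
        · exact hU u hu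
        · rw [card_univ]

/-- **Lemma D.** -/
theorem lemma_D (act : (ι → W) → (ι → V) → X → X) (h0 : ∀ b x, act b 0 x = x)
    (hadd : ∀ b e e' x, act b (e + e') x = act b e (act b e' x)) (E G : Finset X) (hGE : G ⊆ E)
    (UU : X → ι → Finset W) (J : Finset ι) (h κ : ℕ) (hU : ∀ x ∈ G, ∀ u ∈ J, h ≤ (UU x u).card)
    (hin : ∀ x ∈ G, ∀ K, K ⊆ J → κ ≤ K.card →
      2 ^ J.card * inc act E UU K x ≤ h ^ J.card * Fintype.card W ^ (Fintype.card ι - J.card)) :
    G.card * (Fintype.card V * h) ^ J.card ≤
      8 * 2 ^ J.card * Fintype.card V ^ κ * Fintype.card W ^ J.card * Fintype.card X := by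
  classical
  set q := Fintype.card V with hq
  set L := Fintype.card W with hL
  have hq1 : 1 ≤ q := Fintype.card_pos
  set A := h ^ J.card * L ^ (Fintype.card ι - J.card) with hA
  -- the pairs
  let S : Finset (Σ _ : X, ι → W) := G.sigma fun x => unr UU J x
  let N : (Σ _ : X, ι → W) → ℕ := fun p => ((chg J).filter fun e => act p.2 e p.1 ∈ G).card
  have hS : G.card * A ≤ S.card := by
    rw [card_sigma, ← smul_eq_mul, ← sum_const]
    exact sum_le_sum fun x hx => card_unr UU J x h (hU x hx)
  set M := 2 * (2 ^ J.card * q ^ κ) with hM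
  have hM1 : 1 ≤ M := by
    have : 1 ≤ 2 ^ J.card * q ^ κ := Nat.one_le_iff_ne_zero.2 (by positivity)
    omega
  -- the sum of the numbers of returns
  have hsum : ∑ p ∈ S, N p ≤ M * S.card := by
    have e1 : ∀ p, N p = ∑ K ∈ J.powerset, ((univ : Finset (ι → V)).filter fun e => supp e = K ∧
        act p.2 e p.1 ∈ G).card := by
      intro p
      show ((chg J).filter fun e => act p.2 e p.1 ∈ G).card = _
      rw [← card_biUnion]
      · congr 1
        ext e
        simp only [mem_filter, chg, mem_univ, true_and, mem_biUnion, mem_powerset]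
        constructor
        · rintro ⟨h1, h2⟩
          exact ⟨_, h1, rfl, h2⟩
        · rintro ⟨K, h1, rfl, h2⟩
          exact ⟨h1, h2⟩
      · intro K _ K' _ hKK
        rw [Function.onFun, disjoint_left]
        intro e he he'
        exact hKK ((mem_filter.1 he).2.1.symm.trans (mem_filter.1 he').2.1)
    rw [sum_congr rfl fun p _ => e1 p, sum_comm]
    have e2 : ∀ K ∈ J.powerset, ∑ p ∈ S, ((univ : Finset (ι → V)).filter fun e => supp e = K ∧
        act p.2 e p.1 ∈ G).card ≤ q ^ κ * S.card + (if κ ≤ K.card then
          ∑ x ∈ G, inc act E UU K x else 0) := by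
      intro K hK
      rw [mem_powerset] at hK
      split_ifs with hκ
      · refine le_trans ?_ (Nat.le_add_left _ _)
        rw [← card_sigma, ]
        unfold inc
        rw [← card_sigma]
        refine card_le_card_of_injOn (fun s => ⟨act s.1.2 s.2 s.1.1, (s.2, s.1.2)⟩) ?_ ?_
        · rintro ⟨⟨x, b⟩, e⟩ hs
          rw [mem_coe, mem_sigma, mem_filter, mem_sigma] at hs
          rw [mem_coe, mem_sigma, mem_filter]
          obtain ⟨⟨hx, hb⟩, -, hK', hG⟩ := hs
          have hinv : act b (-e) (act b e x) = x := by rw [← hadd, neg_add_cancel, h0]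
          refine ⟨hG, mem_univ _, hK', ?_, ?_⟩
          · show act b (-e) (act b e x) ∈ E
            rw [hinv]
            exact hGE hx
          · intro u hu
            show b u ∈ UU (act b (-e) (act b e x)) u
            rw [hinv]
            exact (mem_filter.1 hb).2 u (hK hu)
        · rintro ⟨⟨x, b⟩, e⟩ _ ⟨⟨x', b'⟩, e'⟩ _ hs
          simp only [Sigma.mk.injEq, heq_eq_eq, Prod.mk.injEq] at hs
          obtain ⟨h1, rfl, rfl⟩ := hs
          have : x = x' := by
            have := congrArg (act b (-e)) h1
            rwa [← hadd, ← hadd, neg_add_cancel, h0, h0] at this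
          subst this
          rfl
      · rw [add_zero, ← smul_eq_mul, smul_eq_mul, mul_comm, ← smul_eq_mul, ← sum_const]
        refine sum_le_sum fun p _ => ?_
        calc ((univ : Finset (ι → V)).filter fun e => supp e = K ∧ act p.2 e p.1 ∈ G).card
            ≤ (chg K : Finset (ι → V)).card := by
              refine card_le_card fun e he => ?_
              rw [chg, mem_filter]
              exact ⟨mem_univ _, (mem_filter.1 he).2.1.le⟩
          _ = q ^ K.card := card_chg K
          _ ≤ q ^ κ := Nat.pow_le_pow_right hq1 (by omega)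
    refine (sum_le_sum e2).trans ?_
    rw [sum_add_distrib, sum_const, card_powerset, smul_eq_mul]
    have e3 : ∑ K ∈ J.powerset, (if κ ≤ K.card then ∑ x ∈ G, inc act E UU K x else 0) ≤ S.card := by
      refine le_trans ?_ hS
      have : ∀ K ∈ J.powerset, 2 ^ J.card * (if κ ≤ K.card then ∑ x ∈ G, inc act E UU K x else 0) ≤ G.card * A := by
        intro K hK
        rw [mem_powerset] at hK
        split_ifs with hκ
        · rw [mul_sum, ← smul_eq_mul (a := G.card), ← sum_const]
          exact sum_le_sum fun x hx => hin x hx K hK hκ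
        · simp
      have h2 := sum_le_sum this
      rw [← mul_sum, sum_const, card_powerset, smul_eq_mul] at h2
      exact Nat.le_of_mul_le_mul_left h2 (by positivity)
    calc 2 ^ J.card * (q ^ κ * S.card) + ∑ K ∈ J.powerset, (if κ ≤ K.card then ∑ x ∈ G, inc act E UU K x else 0)
        ≤ 2 ^ J.card * (q ^ κ * S.card) + S.card := Nat.add_le_add_left e3 _
      _ ≤ 2 ^ J.card * (q ^ κ * S.card) + (2 ^ J.card * q ^ κ) * S.card := by
          refine Nat.add_le_add_left (Nat.le_mul_of_pos_left _ (by positivity)) _
      _ = M * S.card := by rw [hM]; ring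
  -- half of the pairs have few returns
  have hhalf : S.card ≤ 2 * (S.filter fun p => N p ≤ 2 * M).card := by
    have h1 : (S.filter fun p => ¬ N p ≤ 2 * M).card * (2 * M) ≤ ∑ p ∈ S, N p := by
      calc (S.filter fun p => ¬ N p ≤ 2 * M).card * (2 * M)
          = ∑ _p ∈ S.filter (fun p => ¬ N p ≤ 2 * M), 2 * M := by rw [sum_const, smul_eq_mul]
        _ ≤ ∑ p ∈ S.filter (fun p => ¬ N p ≤ 2 * M), N p :=
            sum_le_sum fun p hp => (not_le.1 (mem_filter.1 hp).2).le
        _ ≤ ∑ p ∈ S, N p := sum_le_sum_of_subset (filter_subset _ _)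
    have h2 := card_filter_add_card_filter_not (s := S) (fun p => N p ≤ 2 * M)
    have h3 : (S.filter fun p => ¬ N p ≤ 2 * M).card * 2 ≤ S.card := by
      refine Nat.le_of_mul_le_mul_left (c := M) ?_ hM1
      calc M * ((S.filter fun p => ¬ N p ≤ 2 * M).card * 2) = (S.filter fun p => ¬ N p ≤ 2 * M).card * (2 * M) := by ring
        _ ≤ M * S.card := h1.trans hsum
    omega
  have hfew : (S.filter fun p => N p ≤ 2 * M).card * q ^ J.card ≤ 2 * M * Fintype.card X * L ^ Fintype.card ι := by
    have h1 : (S.filter fun p => N p ≤ 2 * M).card ≤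
        ∑ b : ι → W, (G.filter fun x => ((chg J).filter fun e => act b e x ∈ G).card ≤ 2 * M).card := by
      rw [← card_sigma]
      refine card_le_card_of_injOn (fun p => ⟨p.2, p.1⟩) ?_ ?_
      · rintro ⟨x, b⟩ hp
        rw [mem_coe, mem_filter, mem_sigma] at hp
        rw [mem_coe, mem_sigma, mem_filter]
        exact ⟨mem_univ _, hp.1.1, hp.2⟩
      · rintro ⟨x, b⟩ _ ⟨x', b'⟩ _ h
        simp only [Sigma.mk.injEq, heq_eq_eq] at h
        obtain ⟨rfl, rfl⟩ := h
        rfl
    calc (S.filter fun p => N p ≤ 2 * M).card * q ^ J.card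
        ≤ (∑ b : ι → W, (G.filter fun x => ((chg J).filter fun e => act b e x ∈ G).card ≤ 2 * M).card) *
            q ^ J.card := Nat.mul_le_mul_right _ h1
      _ = ∑ b : ι → W, (G.filter fun x => ((chg J).filter fun e => act b e x ∈ G).card ≤ 2 * M).card *
            q ^ J.card := sum_mul _ _ _
      _ ≤ ∑ _b : ι → W, 2 * M * Fintype.card X :=
          sum_le_sum fun b _ => orbit_bound (act b) (h0 b) (hadd b) J G (2 * M)
      _ = _ := by
          rw [sum_const, card_univ, Fintype.card_fun, smul_eq_mul]
          ring
  -- conclusion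
  have hJ : J.card ≤ Fintype.card ι := card_le_univ J
  rcases Nat.eq_zero_or_pos L with hL0 | hL0
  · rcases Nat.eq_zero_or_pos J.card with hJ0 | hJ0
    · -- no nodes
      rw [hJ0, pow_zero, pow_zero, pow_zero]
      have : G.card ≤ Fintype.card X := card_le_univ G
      have hk : 1 ≤ q ^ κ := Nat.one_le_iff_ne_zero.2 (by positivity)
      calc G.card * 1 ≤ Fintype.card X := by simpa using this
        _ ≤ 8 * 1 * q ^ κ * 1 * Fintype.card X := by
            refine Nat.le_mul_of_pos_left _ ?_
            positivity
    · rcases G.eq_empty_or_nonempty with hG | ⟨x, hx⟩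
      · rw [hG, card_empty, zero_mul]
        exact Nat.zero_le _
      · obtain ⟨u, hu⟩ := card_pos.1 hJ0
        have h1 := hU x hx u hu
        have h2 : (UU x u).card ≤ L := card_le_univ _
        have h3 : h = 0 := by omega
        rw [h3, mul_zero, zero_pow hJ0.ne', mul_zero]
        exact Nat.zero_le _
  · have key : G.card * A * q ^ J.card ≤ 4 * M * Fintype.card X * L ^ Fintype.card ι := by
      calc G.card * A * q ^ J.card ≤ S.card * q ^ J.card := Nat.mul_le_mul_right _ hS
        _ ≤ 2 * (S.filter fun p => N p ≤ 2 * M).card * q ^ J.card := Nat.mul_le_mul_right _ hhalf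
        _ = 2 * ((S.filter fun p => N p ≤ 2 * M).card * q ^ J.card) := by ring
        _ ≤ 2 * (2 * M * Fintype.card X * L ^ Fintype.card ι) := Nat.mul_le_mul_left _ hfew
        _ = _ := by ring
    refine Nat.le_of_mul_le_mul_left (c := L ^ (Fintype.card ι - J.card)) ?_ (by positivity)
    calc L ^ (Fintype.card ι - J.card) * (G.card * (q * h) ^ J.card) = G.card * A * q ^ J.card := by
          rw [hA, mul_pow]; ring
      _ ≤ 4 * M * Fintype.card X * L ^ Fintype.card ι := key
      _ = L ^ (Fintype.card ι - J.card) * (8 * 2 ^ J.card * q ^ κ * L ^ J.card * Fintype.card X) := by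
          rw [hM]
          conv_lhs => rw [← Nat.sub_add_cancel hJ, pow_add]
          ring

end Pool.Agent.Helper89.NQ
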